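import Pool.Agent.MDG.StmtsZ
import Pool.Agent.Helper51_MDG.CRS

/-!
# Squad MDG, row CRT (MP_3faef8_co): copy of CRS with other numbers
-/

set_option autoImplicit false

open Finset Pool.Agent.HEC

namespace Pool.Agent.MDG.H69

open Pool.Agent.MDG.H51

/-- Row CRT. -/
theorem crt (h1 : Cp5Stmt) : CrtStmt := by
  classical
  intro V _ G N p ord hdeg hpp hinj hblob hord
  have hdH : ∀ v, 5000 ≤ dg N.H v := by
    intro v
    have h2 := (h1 V G N {v}).2.2.2.2.2
    rw [cutSing, cutSing] at h2
    have h3 := hdeg v
    omega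
  refine ⟨?_, ?_, ?_, ?_⟩
  · rw [e2Sum]
    have h2 : ∑ _v : V, 5000 ≤ ∑ v, dg N.H v := Finset.sum_le_sum fun v _ => hdH v
    have h3 : ∑ _v : V, 5000 = 5000 * Fintype.card V := by
      rw [Finset.sum_const, Finset.card_univ, smul_eq_mul, mul_comm]
    omega
  · -- a low node
    rintro ⟨v0⟩
    obtain ⟨w, hw, hmin⟩ := Finset.exists_min_image (univ.filter fun w : V => p w = w) ord
      ⟨p v0, by simp [hpp]⟩
    have hw' : p w = w := by simpa using hw
    refine ⟨w, hw', lt_of_le_of_lt ?_ (hord w)⟩
    unfold cut
    refine cntLe _ _ id ?_ ?_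
    · intro q hq
      have h2 : p q.1 = w := by simpa [nde] using hq.1
      have h3 : p q.2 ≠ w := by simpa [nde] using hq.2.1
      refine ⟨h2, hq.2.2, ?_⟩
      have h4 : ord w ≤ ord (p q.2) := hmin (p q.2) (by simp [hpp])
      exact lt_of_le_of_ne h4 fun h => h3 (hinj h).symm
    · intro a b _ _ h
      exact h
  · -- nodes with two elements have edges
    intro w hw
    have hd : ∀ v ∈ nde p w, 165 ≤ dg (res N.H (nde p w)) v := by
      intro v hv
      have hne : ({v} : Finset V) ≠ nde p w := by
        intro h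
        rw [← h, Finset.card_singleton] at hw
        omega
      have h2 := hblob w {v} (Finset.singleton_subset_iff.2 hv) (Finset.singleton_nonempty v) hne
      rw [cutSing] at h2
      exact h2
    have hdle : ∀ v ∈ nde p w, dg (res N.H (nde p w)) v + 1 ≤ (nde p w).card := by
      intro v hv
      have h2 : dg (res N.H (nde p w)) v ≤ ((nde p w).erase v).card := by
        unfold dg cnt
        refine Finset.card_le_card ?_
        intro u hu
        have hu' : (res N.H (nde p w)).Adj v u := by simpa using hu
        refine Finset.mem_erase.2 ⟨?_, hu'.2.2⟩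
        intro h
        rw [h] at hu'
        exact N.H.ne_of_adj hu'.1 rfl
      rw [Finset.card_erase_of_mem hv] at h2
      omega
    obtain ⟨v, hv⟩ : (nde p w).Nonempty := by
      rw [← Finset.card_pos]
      omega
    have hc : 166 ≤ (nde p w).card := by
      have h2 := hd v hv
      have h3 := hdle v hv
      omega
    rw [e2Sum]
    have h4 : ∑ v ∈ nde p w, dg (res N.H (nde p w)) v ≤ ∑ v, dg (res N.H (nde p w)) v :=
      Finset.sum_le_sum_of_subset (Finset.subset_univ _)
    have h5 : ∑ _v ∈ nde p w, 165 ≤ ∑ v ∈ nde p w, dg (res N.H (nde p w)) v :=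
      Finset.sum_le_sum fun v hv => hd v hv
    rw [Finset.sum_const, smul_eq_mul] at h5
    omega
  · -- one element
    intro w hw
    obtain ⟨v, hv⟩ := Finset.card_eq_one.1 hw
    rw [hv, cutSing]
    have h2 := hdH v
    omega

end Pool.Agent.MDG.H69
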